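import Mathlib

namespace Pool.Agent.Results.MP_2fa8e1_co.NoSEDF

open Finset

lemma comm {G : Type} [Group G] [Fintype G] [DecidableEq G] (A B : Finset G)
    (hn : 2 ≤ Fintype.card G)
    (h : ∀ g : G, ((A ×ˢ B).filter fun p => p.1 * p.2⁻¹ = g).card = if g = 1 then 0 else 1)
    {x x' y y' : G} (hx : x ∈ A) (hx' : x' ∈ A) (hy : y ∈ B) (hy' : y' ∈ B)
    (e : y⁻¹ * x = y'⁻¹ * x') : x = x' := by
  let P : Matrix G G ℚ := Matrix.of fun g u => if g⁻¹ * u ∈ A then 1 else 0
  let Q : Matrix G G ℚ := Matrix.of fun u g => if g⁻¹ * u ∈ B then 1 else 0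
  let J : Matrix G G ℚ := Matrix.of fun _ _ => 1
  have hPQ : P * Q = J - 1 := by
    ext g k
    have e1 : (P * Q) g k = ((univ.filter fun u => g⁻¹ * u ∈ A ∧ k⁻¹ * u ∈ B).card : ℚ) := by
      simp only [P, Q, Matrix.mul_apply, Matrix.of_apply, ite_mul, one_mul, zero_mul,
        ← ite_and, sum_boole]
    have e2 : (univ.filter fun u => g⁻¹ * u ∈ A ∧ k⁻¹ * u ∈ B).card =
        ((A ×ˢ B).filter fun p => p.1 * p.2⁻¹ = g⁻¹ * k).card := by
      refine card_bij (fun u _ => (g⁻¹ * u, k⁻¹ * u)) ?_ ?_ ?_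
      · intro u hu
        simp only [mem_filter, mem_univ, true_and, mem_product] at hu ⊢
        exact ⟨hu, by group⟩
      · intro u _ v _ huv
        exact mul_left_cancel (Prod.mk.inj huv).1
      · rintro ⟨a, b⟩ hab
        simp only [mem_filter, mem_product] at hab
        have : k⁻¹ * (g * a) = b := by
          have := hab.2
          rw [mul_inv_eq_iff_eq_mul] at this
          rw [this]; group
        exact ⟨g * a, by simp [hab.1.1, hab.1.2, this], by simp [this]⟩
    rw [e1, e2, h]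
    simp only [J, Matrix.sub_apply, Matrix.of_apply, Matrix.one_apply, inv_mul_eq_one]
    split_ifs <;> simp
  have hPJ : P * J = (A.card : ℚ) • J := by
    ext g k
    simp only [P, J, Matrix.mul_apply, Matrix.of_apply, mul_one, sum_boole, Matrix.smul_apply,
      smul_eq_mul, Nat.cast_inj]
    refine card_bij (fun u _ => g⁻¹ * u) (by simp) (fun u _ v _ h => mul_left_cancel h) ?_
    intro a ha
    exact ⟨g * a, by simpa using ha, by simp⟩
  have hJP : J * P = (A.card : ℚ) • J := by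
    ext g k
    simp only [P, J, Matrix.mul_apply, Matrix.of_apply, one_mul, mul_one, sum_boole,
      Matrix.smul_apply, smul_eq_mul, Nat.cast_inj]
    refine card_bij (fun u _ => u⁻¹ * k) (by simp)
      (fun u _ v _ h => inv_injective (mul_right_cancel h)) ?_
    intro a ha
    exact ⟨k * a⁻¹, by simpa using ha, by simp⟩
  have hJJ : J * J = (Fintype.card G : ℚ) • J := by
    ext g k
    simp [J, Matrix.mul_apply]
  have hn' : (Fintype.card G : ℚ) - 1 ≠ 0 := by
    have : (2 : ℚ) ≤ Fintype.card G := by exact_mod_cast hn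
    linarith
  have hinv : P * (Q * ((((Fintype.card G : ℚ) - 1)⁻¹) • J - 1)) = 1 := by
    rw [← mul_assoc, hPQ, sub_mul, mul_sub, mul_sub, mul_smul_comm, hJJ, one_mul, one_mul, mul_one]
    ext g k
    simp only [J, Matrix.sub_apply, Matrix.smul_apply, Matrix.of_apply, smul_eq_mul, mul_one]
    field_simp
    ring
  have hinv' := mul_eq_one_comm.1 hinv
  have hQP : Q * P = J - 1 := by
    have : P * (Q * P) = P * (J - 1) := by
      rw [← mul_assoc, hPQ, sub_mul, mul_sub, hPJ, hJP, one_mul, mul_one]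
    have := congrArg (fun M => (Q * ((((Fintype.card G : ℚ) - 1)⁻¹) • J - 1)) * M) this
    simpa only [← mul_assoc, hinv', one_mul] using this
  by_contra hne
  have e1 : (Q * P) 1 (y⁻¹ * x) =
      ((univ.filter fun u => u⁻¹ * 1 ∈ B ∧ u⁻¹ * (y⁻¹ * x) ∈ A).card : ℚ) := by
    simp only [P, Q, Matrix.mul_apply, Matrix.of_apply, ite_mul, one_mul, zero_mul,
      ← ite_and, sum_boole]
  have e2 : 2 ≤ (univ.filter fun u => u⁻¹ * 1 ∈ B ∧ u⁻¹ * (y⁻¹ * x) ∈ A).card := by
    rw [Nat.succ_le_iff, one_lt_card]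
    refine ⟨y⁻¹, by simp [hx, hy], y'⁻¹, by simp [e, hx', hy'], fun hh => hne ?_⟩
    rw [hh] at e
    exact mul_left_cancel e
  have e3 : (Q * P) 1 (y⁻¹ * x) ≤ 1 := by
    rw [hQP]
    simp only [J, Matrix.sub_apply, Matrix.of_apply, Matrix.one_apply]
    split_ifs <;> norm_num
  rw [e1] at e3
  have : (2 : ℚ) ≤ 1 := le_trans (by exact_mod_cast e2) e3
  norm_num at this

theorem result (G : Type) [Group G] [Fintype G] [DecidableEq G] (m k : ℕ) (hm : 3 ≤ m)
    (hk : 2 ≤ k) (A : Fin m → Finset G) (hcard : ∀ i, (A i).card = k)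
    (hdisj : ∀ i j, i ≠ j → Disjoint (A i) (A j)) :
    ¬ ∀ (i : Fin m) (g : G), g ≠ 1 →
      ∑ j ∈ univ.erase i, ((A i ×ˢ A j).filter fun p => p.1 * p.2⁻¹ = g).card = 1 := by
  intro H
  let B : Fin m → Finset G := fun i => (univ.erase i).biUnion A
  have hB : ∀ i (g : G), ((A i ×ˢ B i).filter fun p => p.1 * p.2⁻¹ = g).card =
      if g = 1 then 0 else 1 := by
    intro i g
    split_ifs with hg
    · rw [card_eq_zero, filter_eq_empty_iff]
      rintro ⟨a, b⟩ hab e
      simp only [B, mem_product, mem_biUnion, mem_erase] at hab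
      obtain ⟨ha, j, hj, hb⟩ := hab
      rw [hg, mul_inv_eq_one] at e
      simp only at e
      exact disjoint_left.1 (hdisj i j hj.1.symm) ha (e ▸ hb)
    · rw [← H i g hg, ← card_biUnion]
      · congr 1
        ext ⟨a, b⟩
        simp only [B, mem_filter, mem_product, mem_biUnion]
        tauto
      · intro j _ l _ hjl
        simp only [Function.onFun]
        rw [disjoint_left]
        intro p hp hq
        simp only [mem_filter, mem_product] at hp hq
        exact disjoint_left.1 (hdisj j l hjl) hp.1.2 hq.1.2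
  let i0 : Fin m := ⟨0, by omega⟩
  let i1 : Fin m := ⟨1, by omega⟩
  let i2 : Fin m := ⟨2, by omega⟩
  obtain ⟨x, hx, x', hx', hxx⟩ := one_lt_card.1 (show 1 < (A i0).card by rw [hcard]; omega)
  have hn : 2 ≤ Fintype.card G := by
    have := card_le_univ (A i0)
    rw [hcard] at this; omega
  have hg : x * x'⁻¹ ≠ 1 := fun e => hxx (mul_inv_eq_one.1 e)
  have step : ∀ i, i ≠ i0 → ∃ y ∈ A i, ∃ w ∈ A i0, y * w⁻¹ = x * x'⁻¹ := by
    intro i hi
    have := hB i (x * x'⁻¹)
    rw [if_neg hg] at this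
    obtain ⟨⟨y, w⟩, hp⟩ := card_pos.1 (by rw [this]; exact one_pos)
    simp only [B, mem_filter, mem_product, mem_biUnion, mem_erase] at hp
    obtain ⟨⟨hy, j, hj, hw⟩, e⟩ := hp
    by_cases hj0 : j = i0
    · exact ⟨y, hy, w, hj0 ▸ hw, e⟩
    · refine absurd (comm (A i0) (B i0) hn (hB i0) hx hx' (y := y) (y' := w) ?_ ?_ ?_) hxx
      · exact mem_biUnion.2 ⟨i, by simp [hi], hy⟩
      · exact mem_biUnion.2 ⟨j, by simp [hj0], hw⟩
      · rw [mul_inv_eq_iff_eq_mul] at e
        rw [e]; group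
  have n1 : i1 ≠ i0 := by simp [i1, i0]
  have n2 : i2 ≠ i0 := by simp [i2, i0]
  have n12 : i1 ≠ i2 := by simp [i1, i2]
  obtain ⟨y, hy, w, hw, e1⟩ := step i1 n1
  obtain ⟨z, hz, v, hv, e2⟩ := step i2 n2
  have hle : ((A i0 ×ˢ B i0).filter fun p => p.1 * p.2⁻¹ = (x * x'⁻¹)⁻¹).card ≤ 1 := by
    rw [hB]; split_ifs <;> omega
  have := card_le_one.1 hle (w, y) (by
      simp only [mem_filter, mem_product]
      exact ⟨⟨hw, mem_biUnion.2 ⟨i1, by simp [n1], hy⟩⟩, by rw [← e1]; group⟩) (v, z) (by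
      simp only [mem_filter, mem_product]
      exact ⟨⟨hv, mem_biUnion.2 ⟨i2, by simp [n2], hz⟩⟩, by rw [← e2]; group⟩)
  exact disjoint_left.1 (hdisj i1 i2 n12) hy ((Prod.mk.inj this).2 ▸ hz)

end Pool.Agent.Results.MP_2fa8e1_co.NoSEDF
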